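import Pool.Agent.H700.VG.All

/-!
# Polynomial cubes relative to families of bounded VC dimension

Let `X_n` be the disjoint union of the powers `[n]^(d_1), ..., [n]^(d_s)`. The sections of a family `G` of
subsets of `X_N` at the block `B`, the set of the points of `X_N` with all coordinates in `I ⊆ [N]`, are the
families `{x ⊆ B : x ∪ Y ∈ G}`, `Y` a set of other points. We consider the families whose sections at many
disjoint blocks have bounded VC dimension, and all Boolean combinations `F` of boundedly many of them. Let `τ`
be a density such that for one `n` all families of density more than `τ` in `𝒫(X_n)` contain all `2^s`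
members of a two-letter polynomial cube. Then a family `S ⊆ F` without complete polynomial cube has at most
`τ |F| + ε 2^|X_N|` elements. So the relative form of Q1 in all these families follows from Q1, and it holds
for relative densities above `1 - 2^(-s)` (for one power, `s = 1`, see the threshold in
`MP_90b327_co.RelativeToBoundedVC`). This includes the positive densities for families of the class itself:
every family in the class (and every family which contains almost all of it) of positive density contains a
complete polynomial cube, for all `s` and all exponents.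

**Proof.** By the polynomial Hales-Jewett theorem with several parameters (`Pool.Agent.H700.VG.gmulti`, from the
library's form of the theorem of Bergelson and Leibman) and Haussler's packing theorem, each block has a copy of
`𝒫(X_n)` all of whose members are nearly equivalent for `F`; in each such copy `S` has density at most `τ`.
-/

set_option autoImplicit false

namespace Pool.Agent.Results.MP_ecee09_co.RelativeToBoundedVC

open Finset Pool.Agent.H700.VB Pool.Agent.H700.VG

/-- For some `n`, all families with more than `τ 2^|X_n|` members contain a complete polynomial cube, that is,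
they are `Good` for the set `univ` of all `T ⊆ [s]`. -/
def Admissible {s : ℕ} (dd : Fin s → ℕ) (τ : ℝ) : Prop :=
  0 ≤ τ ∧ ∃ n : ℕ, ∀ S : Finset (Finset (Pt dd n)),
    τ * 2 ^ Fintype.card (Pt dd n) < #S → Good univ S

/-- **The relative form of polynomial density Hales-Jewett with a two-letter alphabet for Boolean combinations
of families of bounded VC dimension.** -/
theorem result {s : ℕ} (dd : Fin s → ℕ) (hdd : ∀ r, 1 ≤ dd r) :
    -- (0) the elementary admissible densities
    (∀ τ : ℝ, 1 - 1 / 2 ^ s < τ → Admissible dd τ) ∧
    ∀ τ : ℝ, Admissible dd τ →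
    -- (1) families whose sections at the blocks have bounded VC dimension
    (∀ (D r : ℕ) (ε : ℝ), 0 < ε → ∃ l M : ℕ, ∀ (N : ℕ) (I : Fin M → Finset (Fin N)),
      (∀ k, #(I k) = l) → (∀ j k, j ≠ k → Disjoint (I j) (I k)) →
      ∀ (G : Fin r → Finset (Finset (Pt dd N))) (F S : Finset (Finset (Pt dd N))),
        (∀ i k, SectionsVC D (part dd univ (I k)) (univ.biUnion fun k => part dd univ (I k))
          (G i)) →
        Combination G F → S ⊆ F → ¬ Good univ S →
          (#S : ℝ) ≤ τ * #F + ε * 2 ^ Fintype.card (Pt dd N)) ∧
    -- (2) functions of bounded rank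
    (∀ (w r : ℕ) (ε : ℝ), 0 < ε → ∃ l M : ℕ, ∀ (N : ℕ) (I : Fin M → Finset (Fin N)),
      (∀ k, #(I k) = l) → (∀ j k, j ≠ k → Disjoint (I j) (I k)) →
      ∀ (G : Fin r → Finset (Finset (Pt dd N))) (F S : Finset (Finset (Pt dd N))),
        (∀ i, RankDecided w (fun k => part dd univ (I k)) (G i)) →
        Combination G F → S ⊆ F → ¬ Good univ S →
          (#S : ℝ) ≤ τ * #F + ε * 2 ^ Fintype.card (Pt dd N)) ∧
    -- (3) trigonometric polynomials
    (∀ (t r : ℕ) (ε : ℝ), 0 < ε → ∃ N₀ : ℕ, ∀ N : ℕ, N₀ ≤ N →
      ∀ (G : Fin r → Finset (Finset (Pt dd N))) (F S : Finset (Finset (Pt dd N))),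
        (∀ i, TrigDecided t (G i)) →
        Combination G F → S ⊆ F → ¬ Good univ S →
          (#S : ℝ) ≤ τ * #F + ε * 2 ^ Fintype.card (Pt dd N)) := by
  refine ⟨fun τ hτ => ?_, ?_⟩
  · have hcard : (#(univ : Finset (Finset (Fin s))) : ℝ) = 2 ^ s := by
      rw [card_univ, Fintype.card_finset, Fintype.card_fin]
      push_cast
      rfl
    have h0 : (0 : ℝ) ≤ 1 - 1 / 2 ^ s := by
      have : (1 : ℝ) / 2 ^ s ≤ 1 := by
        rw [div_le_one (by positivity)]
        exact one_le_pow₀ (by norm_num)
      linarith
    exact ⟨h0.trans hτ.le, triv dd hdd univ ⟨∅, mem_univ _⟩ τ (by rw [hcard]; exact hτ)⟩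
  · rintro τ ⟨hτ0, n, hτ⟩
    refine ⟨fun D r ε hε => ?_, fun w r ε hε => rank_main dd hdd univ n τ hτ0 hτ w r ε hε,
      fun t r ε hε => trig_main dd hdd univ n τ hτ0 hτ t r ε hε⟩
    obtain ⟨l, M, h⟩ := main dd hdd univ n τ hτ0 hτ D r ε hε
    exact ⟨l, M, fun N I hI hdis G F S hG ⟨g, hg⟩ hSF hgood =>
      h N I hI hdis G g F S hG hg hSF hgood⟩

end Pool.Agent.Results.MP_ecee09_co.RelativeToBoundedVC
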